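import Mathlib

namespace Pool.Agent.H.MP_fc75c6_al

open scoped IntermediateField

/-- The subfield of the complex numbers generated by all values of all irreducible complex
characters of `G`. -/
noncomputable def charField (G : Type) [Group G] : IntermediateField ℚ ℂ :=
  IntermediateField.adjoin ℚ
    {z : ℂ | ∃ V : FDRep ℂ G, Representation.IsIrreducible V.ρ ∧ ∃ x : G, V.character x = z}

variable {G : Type} [Group G]

theorem sub_char {V : Type} [AddCommGroup V] [Module ℂ V] [FiniteDimensional ℂ V]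
    {ρ : Representation ℂ G V} (W : Subrepresentation ρ) (P : V →ₗ[ℂ] V)
    (h1 : ∀ v, P v ∈ W.toSubmodule) (h2 : ∀ w ∈ W.toSubmodule, P w = w) (g : G) :
    W.toRepresentation.character g = LinearMap.trace ℂ V (ρ g ∘ₗ P) := by
  rw [← LinearMap.trace_restrict_eq_of_forall_mem W.toSubmodule (ρ g ∘ₗ P)
    (fun v => W.apply_mem_toSubmodule g (h1 v))]
  unfold Representation.character
  congr 1
  ext ⟨w, hw⟩
  simp [Subrepresentation.toRepresentation, LinearMap.restrict_apply, h2 w hw]

theorem char_mem [Finite G] (n : ℕ) : ∀ (V : Type) [AddCommGroup V] [Module ℂ V]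
    [FiniteDimensional ℂ V] (ρ : Representation ℂ G V), Module.finrank ℂ V = n →
    ∀ g, ρ.character g ∈ charField G := by
  induction n using Nat.strong_induction_on with
  | _ n ih =>
  intro V _ _ _ ρ hn g
  by_cases hirr : ρ.IsIrreducible
  · exact IntermediateField.subset_adjoin _ _ ⟨FDRep.of ρ, hirr, g, rfl⟩
  by_cases hV : Subsingleton V
  · have : ρ g = 0 := Subsingleton.elim _ _
    simp [Representation.character, this]
  have hnt : Nontrivial V := not_subsingleton_iff_nontrivial.1 hV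
  have hnt' : Nontrivial (Subrepresentation ρ) := ⟨⊥, ⊤, fun h =>
    (bot_ne_top (α := Submodule ℂ V)) (congrArg Subrepresentation.toSubmodule h)⟩
  obtain ⟨W, hb, ht⟩ : ∃ W : Subrepresentation ρ, W ≠ ⊥ ∧ W ≠ ⊤ := by
    by_contra hc
    push Not at hc
    exact hirr ⟨fun W => by by_cases h : W = ⊥; exacts [Or.inl h, Or.inr (hc W h)]⟩
  haveI : NeZero (Nat.card G : ℂ) := ⟨by exact_mod_cast Nat.card_pos.ne'⟩
  obtain ⟨U, hU⟩ := exists_isCompl W
  have hc : IsCompl W.toSubmodule U.toSubmodule := by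
    constructor
    · rw [disjoint_iff]
      exact congrArg Subrepresentation.toSubmodule hU.inf_eq_bot
    · rw [codisjoint_iff]
      exact congrArg Subrepresentation.toSubmodule hU.sup_eq_top
  have hW : W.toSubmodule ≠ ⊤ := fun h => ht (Subrepresentation.toSubmodule_injective h)
  have hU' : U.toSubmodule ≠ ⊤ := fun h => hb (Subrepresentation.toSubmodule_injective
    (by have := hc.inf_eq_bot; rw [h, inf_top_eq] at this; exact this))
  have e1 := sub_char W (W.toSubmodule.projection U.toSubmodule hc)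
    (Submodule.projection_apply_mem hc) (fun w hw => Submodule.projection_apply_of_mem_left hc hw) g
  have e2 := sub_char U (U.toSubmodule.projection W.toSubmodule hc.symm)
    (Submodule.projection_apply_mem hc.symm)
    (fun w hw => Submodule.projection_apply_of_mem_left hc.symm hw) g
  have : ρ.character g = W.toRepresentation.character g + U.toRepresentation.character g := by
    rw [e1, e2, ← map_add, ← LinearMap.comp_add, Submodule.projection_add_projection_eq_id]
    rfl
  rw [this]
  exact add_mem (ih _ (hn ▸ Submodule.finrank_lt hW) _ _ rfl g)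
    (ih _ (hn ▸ Submodule.finrank_lt hU') _ _ rfl g)

/-- right translation on functions -/
def rt (G : Type) [Group G] : Representation ℂ G (G → ℂ) where
  toFun g := LinearMap.funLeft ℂ ℂ (fun y => y * g)
  map_one' := by ext; simp
  map_mul' g h := by ext; simp [LinearMap.funLeft_apply, mul_assoc]

open Classical in
theorem trace_funLeft [Fintype G] (τ : G → G) :
    LinearMap.trace ℂ (G → ℂ) (LinearMap.funLeft ℂ ℂ τ) =
      ((Finset.univ.filter fun y => τ y = y).card : ℂ) := by
  rw [LinearMap.trace_eq_matrix_trace ℂ (Pi.basisFun ℂ G), Matrix.trace, Finset.card_filter]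
  push_cast
  refine Finset.sum_congr rfl fun y _ => ?_
  simp [LinearMap.toMatrix_apply, LinearMap.funLeft_apply, Pi.single_apply]

open Classical in
/-- number of `y` with `y x y⁻¹ = x ^ s`. -/
noncomputable def cnt [Fintype G] (e : ℕ) (x : G) (s : ZMod e) : ℕ :=
  (Finset.univ.filter fun y => x ^ s.val * (y * x⁻¹) = y).card

theorem cnt_ne_zero [Fintype G] (e : ℕ) (x : G) (s : ZMod e) :
    cnt e x s ≠ 0 ↔ IsConj x (x ^ s.val) := by
  classical
  rw [cnt, isConj_iff, Finset.card_ne_zero]
  constructor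
  · rintro ⟨y, hy⟩
    refine ⟨y, ?_⟩
    have := (Finset.mem_filter.1 hy).2
    calc y * x * y⁻¹ = (x ^ s.val * (y * x⁻¹)) * x * y⁻¹ := by rw [this]
      _ = _ := by group
  · rintro ⟨y, hy⟩
    refine ⟨y, Finset.mem_filter.2 ⟨Finset.mem_univ _, ?_⟩⟩
    rw [← hy]; group

theorem dft_mem [Fintype G] (e : ℕ) [NeZero e] (x : G) (hx : x ^ e = 1) (j : ZMod e) :
    ZMod.dft (fun s => (cnt e x s : ℂ)) j ∈ charField G := by
  classical
  have hX : ∀ s t : ZMod e, x ^ (s + t).val = x ^ s.val * x ^ t.val := fun s t => by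
    rw [ZMod.val_add, ← pow_eq_pow_mod _ hx, pow_add]
  let W : Subrepresentation (rt G) :=
    { toSubmodule :=
        { carrier := {f | ∀ (s : ZMod e) y, f (x ^ s.val * y) = ZMod.stdAddChar (s * j) * f y}
          add_mem' := fun {f g} hf hg s y => by simp [hf s y, hg s y, mul_add]
          zero_mem' := fun s y => by simp
          smul_mem' := fun c f hf s y => by
            simp only [Pi.smul_apply, smul_eq_mul, hf s y]; ring }
      apply_mem_toSubmodule := fun g f hf s y => by
        change f (x ^ s.val * y * g) = _ * f (y * g)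
        rw [mul_assoc, hf] }
  let P : (G → ℂ) →ₗ[ℂ] (G → ℂ) := (e : ℂ)⁻¹ • ∑ s : ZMod e,
    ZMod.stdAddChar (-(s * j)) • LinearMap.funLeft ℂ ℂ (fun y => x ^ s.val * y)
  have hP : ∀ f y, P f y = (e : ℂ)⁻¹ * ∑ s : ZMod e,
      ZMod.stdAddChar (-(s * j)) * f (x ^ s.val * y) := fun f y => by
    simp [P, LinearMap.funLeft_apply, Finset.sum_apply]
  have he : (e : ℂ) ≠ 0 := by exact_mod_cast NeZero.ne e
  have h1 : ∀ f, P f ∈ W.toSubmodule := fun f t y => by
    rw [hP, hP, mul_left_comm]
    congr 1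
    rw [Finset.mul_sum]
    refine Fintype.sum_equiv (Equiv.addRight t) _ _ fun s => ?_
    rw [Equiv.coe_addRight, hX, ← mul_assoc, ← mul_assoc, ← AddChar.map_add_eq_mul]
    congr 2
    ring
  have h2 : ∀ f ∈ W.toSubmodule, P f = f := fun f hf => by
    ext y
    rw [hP]
    have : ∀ s : ZMod e, ZMod.stdAddChar (-(s * j)) * f (x ^ s.val * y) = f y := fun s => by
      rw [hf s y, ← mul_assoc, ← AddChar.map_add_eq_mul, neg_add_cancel, AddChar.map_zero_eq_one,
        one_mul]
    simp only [this, Finset.sum_const, Finset.card_univ, ZMod.card, nsmul_eq_mul]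
    field_simp
  have key := char_mem _ _ W.toRepresentation rfl x⁻¹
  rw [sub_char W P h1 h2] at key
  have : ZMod.dft (fun s => (cnt e x s : ℂ)) j =
      (e : ℂ) * LinearMap.trace ℂ _ (rt G x⁻¹ ∘ₗ P) := by
    simp only [P, ← Module.End.mul_eq_comp, mul_smul_comm, map_smul, smul_eq_mul, Finset.mul_sum,
      map_sum]
    rw [← Finset.mul_sum, ← Finset.mul_sum]
    rw [← mul_assoc, mul_inv_cancel₀ he, one_mul, ZMod.dft_apply]
    refine Finset.sum_congr rfl fun s _ => ?_
    rw [smul_eq_mul, cnt, ← trace_funLeft]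
    rfl
  rw [this]
  exact mul_mem (natCast_mem _ e) key

theorem rank_lb [Fintype G] (e : ℕ) [NeZero e] (hG : ∀ x : G, x ^ e = 1) {ι : Type} [Fintype ι]
    (u : ι → (ZMod e)ˣ)
    (hu : ∀ i j, (∀ x : G, IsConj x (x ^ (u i).val.val) ↔ IsConj x (x ^ (u j).val.val)) → i = j) :
    (Fintype.card ι : Cardinal) ≤ Module.rank ℚ (charField G) := by
  classical
  set ζ : ℂ := ZMod.stdAddChar (1 : ZMod e) with hζd
  have hψ : ∀ a : ZMod e, ZMod.stdAddChar a = ζ ^ a.val := fun a => by
    rw [hζd, ← AddChar.map_nsmul_eq_pow]; simp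
  have hζ : IsPrimitiveRoot ζ e := by
    have := Complex.isPrimitiveRoot_exp e (NeZero.ne e)
    have h := ZMod.stdAddChar_coe (N := e) 1
    simp only [Int.cast_one, mul_one] at h
    rw [hζd, h]; exact this
  have hint : IsIntegral ℚ ζ := (hζ.isIntegral (NeZero.pos e)).tower_top
  haveI : FiniteDimensional ℚ ℚ⟮ζ⟯ := IntermediateField.adjoin.finiteDimensional hint
  have hroot : ∀ v : (ZMod e)ˣ, ζ ^ v.val.val ∈ (minpoly ℚ ζ).aroots ℂ := fun v => by
    have h2 := hζ.pow_of_coprime _ (ZMod.val_coe_unit_coprime v)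
    rw [Polynomial.mem_aroots]
    refine ⟨minpoly.ne_zero hint, ?_⟩
    rw [← Polynomial.cyclotomic_eq_minpoly_rat hζ (NeZero.pos e),
      Polynomial.cyclotomic_eq_minpoly_rat h2 (NeZero.pos e)]
    exact minpoly.aeval _ _
  let σ : (ZMod e)ˣ → (ℚ⟮ζ⟯ →ₐ[ℚ] ℂ) := fun v =>
    (IntermediateField.algHomAdjoinIntegralEquiv ℚ hint).symm ⟨_, hroot v⟩
  have hσ : ∀ v, σ v (IntermediateField.AdjoinSimple.gen ℚ ζ) = ζ ^ v.val.val := fun v =>
    IntermediateField.algHomAdjoinIntegralEquiv_symm_apply_gen ℚ hint _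
  let K' : IntermediateField ℚ ℚ⟮ζ⟯ := (charField G).comap ℚ⟮ζ⟯.val
  let b : G → ZMod e → ℚ⟮ζ⟯ := fun x j => ∑ s : ZMod e,
    IntermediateField.AdjoinSimple.gen ℚ ζ ^ (-(s * j)).val * (cnt e x s : ℚ⟮ζ⟯)
  have hb : ∀ x j, b x j ∈ K' := fun x j => by
    change ℚ⟮ζ⟯.val (b x j) ∈ charField G
    convert dft_mem e x (hG x) j using 1
    simp only [b, map_sum, map_mul, map_pow, map_natCast, ZMod.dft_apply, hψ, smul_eq_mul]
    rfl
  have hσb : ∀ v x j, σ v (b x j) = ZMod.dft (fun s => (cnt e x s : ℂ)) (v.val * j) :=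
    fun v x j => by
    simp only [b, map_sum, map_mul, map_pow, map_natCast, ZMod.dft_apply, smul_eq_mul, hσ]
    refine Finset.sum_congr rfl fun s _ => ?_
    congr 1
    rw [← hψ, ← AddChar.map_nsmul_eq_pow]
    congr 1
    simp only [nsmul_eq_mul, ZMod.natCast_val, ZMod.cast_id', id]
    ring
  let φ : ι → (K' →ₐ[ℚ] ℂ) := fun i => (σ (u i)).comp K'.val
  have hφ : Function.Injective φ := fun i j h => hu i j fun x => by
    have h1 : ∀ k, ZMod.dft (fun s => (cnt e x s : ℂ)) ((u i).val * k) =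
        ZMod.dft (fun s => (cnt e x s : ℂ)) ((u j).val * k) := fun k => by
      rw [← hσb, ← hσb]
      exact congrArg (fun f : K' →ₐ[ℚ] ℂ => f ⟨b x k, hb x k⟩) h
    have h2 : ZMod.dft (fun s => (cnt e x ((u i)⁻¹.val * s) : ℂ)) =
        ZMod.dft (fun s => (cnt e x ((u j)⁻¹.val * s) : ℂ)) := by
      ext k
      rw [ZMod.dft_comp_unitMul (fun s => (cnt e x s : ℂ)),
        ZMod.dft_comp_unitMul (fun s => (cnt e x s : ℂ)), inv_inv, inv_inv, h1]
    have h3 := congrFun (ZMod.dft.injective h2) ((u i).val * (u j).val)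
    simp only [Units.inv_mul_cancel_left, Nat.cast_inj] at h3
    rw [mul_comm (u i).val, Units.inv_mul_cancel_left] at h3
    rw [← cnt_ne_zero, ← cnt_ne_zero, h3]
  have c1 : Fintype.card ι ≤ Module.finrank ℚ K' := by
    rw [← Nat.card_eq_fintype_card]
    exact (Nat.card_le_card_of_injective φ hφ).trans (card_algHom_le_finrank ℚ K' ℂ)
  let f : K' →ₗ[ℚ] charField G :=
    { toFun := fun z => ⟨(z.1 : ℂ), z.2⟩
      map_add' := fun _ _ => rfl
      map_smul' := fun _ _ => rfl }
  have hf : Function.Injective f := fun z w h =>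
    Subtype.ext (Subtype.ext (congrArg (fun a : charField G => (a : ℂ)) h))
  calc (Fintype.card ι : Cardinal) ≤ Module.finrank ℚ K' := by exact_mod_cast c1
    _ = Module.rank ℚ K' := Module.finrank_eq_rank _ _
    _ ≤ _ := LinearMap.rank_le_of_injective f hf

end Pool.Agent.H.MP_fc75c6_al
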