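import Mathlib

namespace Pool.Agent.H.MP_fc75c6_al

open Equiv

theorem perm_rat {α : Type} [Fintype α] [DecidableEq α] (g : Perm α) (t : ℕ) :
    t.Coprime (orderOf g) → IsConj g (g ^ t) := by
  induction g using Perm.cycle_induction_on with
  | base_one => intro _; simp
  | base_cycles σ hσ =>
    intro h
    exact hσ.isConj (hσ.pow_iff.2 h) (by rw [Perm.support_pow_coprime h])
  | induction_disjoint σ τ hd _ h1 h2 =>
    intro h
    rw [hd.orderOf] at h
    rw [hd.commute.mul_pow]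
    exact Perm.Disjoint.isConj_mul (h1 (h.coprime_dvd_right (Nat.dvd_lcm_left _ _)))
      (h2 (h.coprime_dvd_right (Nat.dvd_lcm_right _ _))) hd (hd.pow_disjoint_pow _ _)

def oddP (n : ℕ) : ℕ := ∏ i ∈ Finset.range n, (2 * i + 1)

theorem oddP_odd (n : ℕ) : Odd (oddP n) :=
  Finset.prod_induction _ Odd (fun _ _ => Odd.mul) odd_one fun i _ => odd_two_mul_add_one i

theorem perm_dich {n : ℕ} (g : Perm (Fin n)) :
    g ^ oddP n = 1 ∨ ∃ c : Perm (Fin n), Perm.sign c = -1 ∧ c * g * c⁻¹ = g := by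
  by_cases h : ∀ k ∈ g.cycleType, Odd k
  · left
    rw [← orderOf_dvd_iff_pow_eq_one, ← Perm.lcm_cycleType, Multiset.lcm_dvd]
    intro k hk
    obtain ⟨i, rfl⟩ := h k hk
    have : 2 * i + 1 ≤ n := by
      have h1 := Multiset.le_sum_of_mem hk
      rw [Perm.sum_cycleType] at h1
      simpa using h1.trans (Finset.card_le_univ _)
    exact Finset.dvd_prod_of_mem _ (Finset.mem_range.2 (by omega))
  · right
    push Not at h
    obtain ⟨k, hk, hk2⟩ := h
    obtain ⟨c, τ, rfl, hd, hc, rfl⟩ := Perm.mem_cycleType_iff.1 hk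
    refine ⟨c, ?_, ?_⟩
    · rw [hc.sign, (Nat.not_odd_iff_even.1 hk2).neg_one_pow]
    · rw [mul_assoc, mul_assoc, ← hd.commute.inv_left.eq, mul_inv_cancel_left]

theorem sign_odd {α : Type} [Fintype α] [DecidableEq α] {c : Perm α} {k : ℕ} (hk : Odd k)
    (h : c ^ k = 1) : Perm.sign c = 1 := by
  have := congrArg Perm.sign h
  rw [map_pow, map_one] at this
  rcases Int.units_eq_one_or (Perm.sign c) with h1 | h1
  · exact h1
  · rw [h1, hk.neg_one_pow] at this
    exact absurd this (by decide)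

section two
variable (p q : ℕ) [hp : Fact p.Prime] [NeZero q]

def gg : Perm (ZMod p ⊕ ZMod q) := Perm.sumCongr (Equiv.addLeft 1) (Equiv.addLeft 1)

omit [NeZero q] in
theorem gg_inl (k : ℕ) (x : ZMod p) : (gg p q ^ k) (Sum.inl x) = Sum.inl (k + x) := by
  induction k with
  | zero => simp
  | succ k ih => rw [pow_succ', Perm.mul_apply, ih]; simp [gg]; ring

omit [NeZero q] in
theorem gg_inr (k : ℕ) (x : ZMod q) : (gg p q ^ k) (Sum.inr x) = Sum.inr (k + x) := by
  induction k with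
  | zero => simp
  | succ k ih => rw [pow_succ', Perm.mul_apply, ih]; simp [gg]; ring

omit [NeZero q] in
theorem gg_pow : gg p q ^ (p * q) = 1 := by
  ext1 x
  rcases x with x | x
  · rw [gg_inl]; simp
  · rw [gg_inr]; simp

theorem cent_pow (hpq : ¬ p ∣ q) (c : Perm (ZMod p ⊕ ZMod q)) (hc : Commute c (gg p q)) :
    c ^ (p * q) = 1 := by
  have hq : (q : ZMod p) ≠ 0 := fun h => hpq ((ZMod.natCast_eq_zero_iff _ _).1 h)
  have hk : ∀ k z, c ((gg p q ^ k) z) = (gg p q ^ k) (c z) := fun k z => by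
    rw [← Perm.mul_apply, (hc.pow_right k).eq, Perm.mul_apply]
  obtain ⟨u, hu⟩ : ∃ u, c (Sum.inl 0) = Sum.inl u := by
    rcases h : c (Sum.inl 0) with u | v
    · exact ⟨u, rfl⟩
    · have := hk q (Sum.inl 0)
      rw [h, gg_inr, ZMod.natCast_self, zero_add, ← h, gg_inl] at this
      simpa [hq] using c.injective this
  obtain ⟨v, hv⟩ : ∃ v, c (Sum.inr 0) = Sum.inr v := by
    rcases h : c (Sum.inr 0) with u | v
    · have := hk q (Sum.inr 0)
      rw [gg_inr, ZMod.natCast_self, zero_add, h, gg_inl] at this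
      simpa [hq] using this
    · exact ⟨v, rfl⟩
  have h1 : ∀ x, c (Sum.inl x) = Sum.inl (x + u) := fun x => by
    have := hk x.val (Sum.inl 0)
    rw [hu, gg_inl, gg_inl] at this
    simpa using this
  have h2 : ∀ x, c (Sum.inr x) = Sum.inr (x + v) := fun x => by
    have := hk x.val (Sum.inr 0)
    rw [hv, gg_inr, gg_inr] at this
    simpa using this
  have h3 : ∀ (k : ℕ) x, (c ^ k) (Sum.inl x) = Sum.inl (x + k * u) := fun k x => by
    induction k with
    | zero => simp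
    | succ k ih => rw [pow_succ', Perm.mul_apply, ih, h1]; push_cast; ring_nf
  have h4 : ∀ (k : ℕ) x, (c ^ k) (Sum.inr x) = Sum.inr (x + k * v) := fun k x => by
    induction k with
    | zero => simp
    | succ k ih => rw [pow_succ', Perm.mul_apply, ih, h2]; push_cast; ring_nf
  ext1 x
  rcases x with x | x
  · rw [h3]; simp
  · rw [h4]; simp

theorem exists_odd_mul (hp2 : Odd p) :
    ∃ r : (ZMod p)ˣ, Perm.sign (r.mulLeft : Perm (ZMod p)) = -1 := by
  obtain ⟨r, hr⟩ := IsCyclic.exists_monoid_generator (α := (ZMod p)ˣ)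
  have h3 : 2 < p := by
    have := hp.out.two_le
    rcases hp2 with ⟨k, hk⟩
    omega
  have hr1 : (r : ZMod p) ≠ 1 := by
    intro h
    have h1 : r = 1 := Units.ext h
    obtain ⟨k, hk⟩ := hr (-1)
    simp only [h1, one_pow] at hk
    haveI : Fact (2 < p) := ⟨h3⟩
    exact ZMod.neg_one_ne_one (n := p) (by simpa using (congrArg Units.val hk).symm)
  have hs : ∀ y : ZMod p, r.mulLeft y ≠ y ↔ y ≠ 0 := fun y => by
    rw [Units.mulLeft_apply, not_iff_not]
    constructor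
    · intro h
      by_contra h0
      exact hr1 (mul_right_cancel₀ h0 (by rw [one_mul]; exact h))
    · rintro rfl; simp
  have hpow : ∀ (k : ℕ) y, (r.mulLeft ^ k : Perm (ZMod p)) y = (r : ZMod p) ^ k * y :=
    fun k y => by
    induction k with
    | zero => simp
    | succ k ih => rw [pow_succ', Perm.mul_apply, ih, Units.mulLeft_apply]; ring
  have hc : Perm.IsCycle (r.mulLeft : Perm (ZMod p)) := by
    refine ⟨1, (hs 1).2 one_ne_zero, fun y hy => ?_⟩
    obtain ⟨k, hk⟩ := hr (Units.mk0 y ((hs y).1 hy))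
    refine ⟨(k : ℤ), ?_⟩
    rw [zpow_natCast, hpow, mul_one]
    simpa using congrArg Units.val hk
  refine ⟨r, ?_⟩
  have : Perm.support (r.mulLeft : Perm (ZMod p)) = Finset.univ.erase 0 := by
    ext y; rw [Perm.mem_support, hs]; simp
  rw [hc.sign, this, Finset.card_erase_of_mem (Finset.mem_univ _), Finset.card_univ, ZMod.card,
    (Nat.Odd.sub_odd hp2 odd_one).neg_one_pow]

theorem two_cycles (hp2 : Odd p) (hq2 : Odd q) (hpq : ¬ p ∣ q) :
    ∃ r : ℕ, r.Coprime p ∧ ∀ t : ℕ, t ≡ r [MOD p] → t ≡ 1 [MOD q] →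
      ∀ a : Perm (ZMod p ⊕ ZMod q), a * gg p q * a⁻¹ = gg p q ^ t → Perm.sign a = -1 := by
  obtain ⟨r, hr⟩ := exists_odd_mul p hp2
  refine ⟨r.val.val, ZMod.val_coe_unit_coprime r, fun t h1 h2 a ha => ?_⟩
  have e1 : (t : ZMod p) = r := by
    rw [(ZMod.natCast_eq_natCast_iff _ _ _).2 h1]; simp
  have e2 : (t : ZMod q) = 1 := by
    rw [(ZMod.natCast_eq_natCast_iff _ _ _).2 h2]; simp
  let b : Perm (ZMod p ⊕ ZMod q) := Perm.sumCongr r.mulLeft 1
  have hb : b * gg p q = gg p q ^ t * b := by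
    ext1 x
    rcases x with x | x
    · rw [Perm.mul_apply, Perm.mul_apply]
      change Sum.inl (r.val * (1 + x)) = (gg p q ^ t) (Sum.inl (r.val * x))
      rw [gg_inl, e1, mul_add, mul_one]
    · rw [Perm.mul_apply, Perm.mul_apply]
      change Sum.inr (1 + x) = (gg p q ^ t) (Sum.inr x)
      rw [gg_inr, e2]
  have hc : Commute (b⁻¹ * a) (gg p q) := by
    rw [mul_inv_eq_iff_eq_mul] at ha
    change b⁻¹ * a * gg p q = gg p q * (b⁻¹ * a)
    rw [mul_assoc, ha, inv_mul_eq_iff_eq_mul, ← mul_assoc, hb, mul_assoc, mul_inv_cancel_left]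
  have := sign_odd (hp2.mul hq2) (cent_pow p q hpq _ hc)
  rw [map_mul, map_inv, inv_mul_eq_one] at this
  rw [← this, Perm.sign_sumCongr, hr]
  simp

theorem two_cycles_fin (hp2 : Odd p) (hq2 : Odd q) (hpq : ¬ p ∣ q) (n : ℕ) (hn : n = p + q) :
    ∃ g : Perm (Fin n), g ^ (p * q) = 1 ∧ ∃ r : ℕ, r.Coprime p ∧
      ∀ t : ℕ, t ≡ r [MOD p] → t ≡ 1 [MOD q] →
      ∀ a : Perm (Fin n), a * g * a⁻¹ = g ^ t → Perm.sign a = -1 := by
  obtain ⟨r, hr, h⟩ := two_cycles p q hp2 hq2 hpq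
  let E : (ZMod p ⊕ ZMod q) ≃ Fin n := Fintype.equivFinOfCardEq (by simp [hn])
  refine ⟨E.permCongrHom (gg p q), by rw [← map_pow, gg_pow, map_one], r, hr,
    fun t h1 h2 a ha => ?_⟩
  obtain ⟨a, rfl⟩ := E.permCongrHom.surjective a
  rw [← map_pow, ← map_inv, ← map_mul, ← map_mul] at ha
  rw [← h t h1 h2 a (E.permCongrHom.injective ha)]
  exact Perm.sign_permCongr E a

end two

theorem exists_t {p e r : ℕ} (hp : p.Prime) (he : e ≠ 0) (hr : r.Coprime p) :
    ∃ t : ℕ, t.Coprime e ∧ t ≡ r [MOD p] ∧ ∀ d, d ∣ e → d.Coprime p → t ≡ 1 [MOD d] := by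
  obtain ⟨a, e', he', rfl⟩ := Nat.exists_eq_pow_mul_and_not_dvd he p hp.ne_one
  have hc : p.Coprime e' := (Nat.Prime.coprime_iff_not_dvd hp).2 he'
  obtain ⟨t, h1, h2⟩ := Nat.chineseRemainder hc r 1
  refine ⟨t, Nat.Coprime.mul_right (Nat.Coprime.pow_right _ ?_) ?_, h1, fun d hd hdp => ?_⟩
  · rw [Nat.Coprime, h1.gcd_eq]; exact hr
  · rw [Nat.Coprime, h2.gcd_eq]; simp
  · exact h2.of_dvd ((hdp.pow_right a).dvd_of_dvd_mul_left hd)

end Pool.Agent.H.MP_fc75c6_al
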