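import Pool.Agent.H.MP_fc75c6_al.A
import Pool.Agent.H.MP_fc75c6_al.B

namespace Pool.Agent.H.MP_fc75c6_al

open Equiv

abbrev D8 := DihedralGroup 4

def chiF : D8 → ℤˣ
  | DihedralGroup.r _ => 1
  | DihedralGroup.sr _ => -1

def chi : D8 →* ℤˣ where
  toFun := chiF
  map_one' := rfl
  map_mul' := by decide

def phi (n : ℕ) : Perm (Fin n) × D8 →* ℤˣ := Perm.sign.coprod chi

theorem phi_apply {n : ℕ} (a : Perm (Fin n)) (b : D8) :
    phi n (a, b) = Perm.sign a * chiF b := rfl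

abbrev GG (n : ℕ) : Type := (phi n).ker

theorem d8_four : ∀ h : D8, h ^ 4 = 1 := by decide

theorem d8_out : ∀ h : D8, ∃ b : D8, chiF b = -1 ∧ b * h * b⁻¹ = h ^ 3 := by decide

theorem d8_rat : ∀ h : D8, ∀ i < 4, ∀ j < 4, (h ^ j) ^ i = h → ∃ b : D8, b * h * b⁻¹ = h ^ j := by
  decide

theorem d8_cent : ∀ b : D8, b * DihedralGroup.r 1 * b⁻¹ = DihedralGroup.r 1 → chiF b = 1 := by
  decide

theorem outer {n : ℕ} (x : Perm (Fin n) × D8) : ∃ u, phi n u = -1 ∧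
    (u * x * u⁻¹ = x ∨ u * x * u⁻¹ = x ^ (1 + 2 * oddP n)) := by
  obtain ⟨g, h⟩ := x
  rcases perm_dich g with hg | ⟨c, hc, hc'⟩
  · obtain ⟨b, hb, hb'⟩ := d8_out h
    refine ⟨(1, b), by simp [phi_apply, hb], Or.inr (Prod.ext ?_ ?_)⟩
    · simp [pow_add, mul_comm 2, pow_mul, hg]
    · obtain ⟨k, hk⟩ := oddP_odd n
      change b * h * b⁻¹ = h ^ _
      rw [hb', pow_eq_pow_mod (1 + 2 * oddP n) (d8_four h)]
      congr 1
      omega
  · refine ⟨(c, 1), by rw [phi_apply, hc]; rfl, Or.inl (Prod.ext hc' (by simp))⟩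

theorem rat {n : ℕ} (x : Perm (Fin n) × D8) (i j : ℕ) (h : (x ^ j) ^ i = x) :
    ∃ r, r * x * r⁻¹ = x ^ j := by
  obtain ⟨g, d⟩ := x
  have h1 : (g ^ j) ^ i = g := congrArg Prod.fst h
  have h2 : (d ^ j) ^ i = d := congrArg Prod.snd h
  have ho : orderOf (g ^ j) = orderOf g :=
    Nat.dvd_antisymm (orderOf_pow_dvd j) (by nth_rw 1 [← h1]; exact orderOf_pow_dvd i)
  rw [orderOf_pow, Nat.div_eq_self] at ho
  obtain ⟨a, ha⟩ := isConj_iff.1
    (perm_rat g j (Nat.Coprime.symm (ho.resolve_left (orderOf_pos g).ne')))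
  obtain ⟨b, hb⟩ := d8_rat d (i % 4) (Nat.mod_lt _ (by norm_num)) (j % 4)
    (Nat.mod_lt _ (by norm_num))
    (by rw [← pow_eq_pow_mod _ (d8_four _), ← pow_eq_pow_mod _ (d8_four _), h2])
  rw [← pow_eq_pow_mod _ (d8_four _)] at hb
  exact ⟨(a, b), Prod.ext ha hb⟩

theorem usr (n : ℕ) (x y : GG n) (h : Subgroup.zpowers y = Subgroup.zpowers x) :
    IsConj y x ∨ IsConj y (x ^ (1 + 2 * oddP n)) := by
  obtain ⟨j, rfl⟩ := mem_powers_iff_mem_zpowers.2 (h ▸ Subgroup.mem_zpowers y :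
    y ∈ Subgroup.zpowers x)
  obtain ⟨i, hi⟩ := mem_powers_iff_mem_zpowers.2 (h.symm ▸ Subgroup.mem_zpowers x :
    x ∈ Subgroup.zpowers (x ^ j))
  obtain ⟨r, hr⟩ := rat x.1 i j (congrArg Subtype.val hi)
  obtain ⟨u, hu, hu'⟩ := outer x.1
  rcases Int.units_eq_one_or (phi n r) with h1 | h1
  · exact Or.inl (isConj_iff.2 ⟨⟨r, h1⟩, Subtype.ext hr⟩).symm
  · have hm : r * u⁻¹ ∈ (phi n).ker := by
      rw [MonoidHom.mem_ker, map_mul, map_inv, h1, hu]; simp
    rcases hu' with hu' | hu'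
    · refine Or.inl (isConj_iff.2 ⟨⟨_, hm⟩, Subtype.ext ?_⟩).symm
      change r * u⁻¹ * x.1 * (r * u⁻¹)⁻¹ = x.1 ^ j
      rw [← hr]
      nth_rw 1 [← hu']
      group
    · refine Or.inr (isConj_iff.2 ⟨⟨_, hm⟩, Subtype.ext ?_⟩).symm
      change r * u⁻¹ * x.1 ^ (1 + 2 * oddP n) * (r * u⁻¹)⁻¹ = x.1 ^ j
      rw [← hr, ← hu']
      group

theorem gg_exp (n : ℕ) (x : GG n) : x ^ (n.factorial * 4) = 1 := by
  refine Subtype.ext (Prod.ext ?_ ?_)
  · change x.1.1 ^ (n.factorial * 4) = 1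
    have : x.1.1 ^ n.factorial = 1 := by
      have := pow_card_eq_one (x := x.1.1)
      rwa [Fintype.card_perm, Fintype.card_fin] at this
    rw [pow_mul, this, one_pow]
  · change x.1.2 ^ (n.factorial * 4) = 1
    rw [mul_comm, pow_mul, d8_four, one_pow]

theorem elt {n p q : ℕ} (hp : p.Prime) (hp2 : Odd p) (hq2 : Odd q) (hpq : ¬ p ∣ q)
    (hn : n = p + q) : ∃ (x : GG n) (t : ℕ), x ^ (p * q * 4) = 1 ∧
      t.Coprime (n.factorial * 4) ∧ ¬ IsConj x (x ^ t) ∧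
      ∀ d, d ∣ n.factorial * 4 → d.Coprime p → t ≡ 1 [MOD d] := by
  haveI := Fact.mk hp
  haveI : NeZero q := ⟨hq2.pos.ne'⟩
  obtain ⟨g, hg, r, hr, h⟩ := two_cycles_fin p q hp2 hq2 hpq n hn
  obtain ⟨t, h1, h2, h3⟩ := exists_t (e := n.factorial * 4) hp (by positivity) hr
  have hs := sign_odd (hp2.mul hq2) hg
  refine ⟨⟨(g, DihedralGroup.r 1), by rw [MonoidHom.mem_ker, phi_apply, hs]; rfl⟩, t, ?_, h1,
    fun hc => ?_, h3⟩
  · refine Subtype.ext (Prod.ext ?_ ?_)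
    · change g ^ (p * q * 4) = 1
      rw [pow_mul, hg, one_pow]
    · change (DihedralGroup.r 1 : D8) ^ (p * q * 4) = 1
      rw [mul_comm, pow_mul, d8_four, one_pow]
  · obtain ⟨⟨⟨a, b⟩, hab⟩, hc⟩ := isConj_iff.1 hc
    have e1 : a * g * a⁻¹ = g ^ t := congrArg (fun z : GG n => z.1.1) hc
    have e2 : b * DihedralGroup.r 1 * b⁻¹ = DihedralGroup.r 1 ^ t :=
      congrArg (fun z : GG n => z.1.2) hc
    have h4 : t ≡ 1 [MOD 4] := h3 4 (Dvd.intro_left _ rfl)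
      (Nat.Coprime.pow_left 2 (Nat.coprime_two_left.2 hp2))
    rw [pow_eq_pow_mod t (d8_four _), h4, pow_one] at e2
    have hq : t ≡ 1 [MOD q] := h3 q
      (Dvd.dvd.mul_right (Nat.dvd_factorial hq2.pos (by omega)) _)
      ((Nat.Prime.coprime_iff_not_dvd hp).2 hpq).symm
    rw [MonoidHom.mem_ker, phi_apply, h t h2 hq a e1, d8_cent b e2] at hab
    exact absurd hab (by decide)

theorem big (c : ℕ) : ∃ n : ℕ, (c : Cardinal) ≤ Module.rank ℚ (charField (GG n)) := by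
  classical
  obtain ⟨S, hS, hc⟩ := (Nat.infinite_setOf_prime.diff (Set.finite_singleton 2)).exists_subset_card_eq c
  have hp : ∀ p ∈ S, p.Prime := fun p h => (hS h).1
  have ho : ∀ p ∈ S, Odd p := fun p h => (hp p h).odd_of_ne_two (hS h).2
  set P := ∏ p ∈ S, p with hP
  have hPo : Odd P := Finset.prod_induction _ Odd (fun _ _ => Odd.mul) odd_one ho
  have hd : ∀ p ∈ S, p ∣ P := fun p h => Finset.dvd_prod_of_mem _ h
  have hle : ∀ p ∈ S, p ≤ P := fun p h => Nat.le_of_dvd hPo.pos (hd p h)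
  have hnd : ∀ p ∈ S, ∀ p' ∈ S, p' ≤ p → ¬ p ∣ P + 1 - p' := fun p h p' h' hl hdv => by
    have h2 := (hp p' h').two_le
    have h3 := hle p' h'
    have : p ∣ p' - 1 := by
      have := Nat.dvd_sub (hd p h) hdv
      rwa [show P - (P + 1 - p') = p' - 1 by omega] at this
    have := Nat.le_of_dvd (by omega) this
    omega
  have hnd' : ∀ p ∈ S, ¬ p ∣ P + 1 - p := fun p h hdv => by
    have h3 := hle p h
    have := (Nat.dvd_add_right (dvd_refl p)).2 hdv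
    rw [show p + (P + 1 - p) = P + 1 by omega, Nat.dvd_add_right (hd p h)] at this
    exact (hp p h).one_lt.ne' (Nat.dvd_one.1 this)
  have hq : ∀ p ∈ S, Odd (P + 1 - p) := fun p h =>
    Nat.Even.sub_odd (by have := hle p h; omega) hPo.add_one (ho p h)
  choose x t h1 h2 h3 h4 using fun p : S => elt (n := P + 1) (hp p p.2) (ho p p.2) (hq p p.2)
    (hnd' p p.2) (by have := hle p p.2; omega)
  haveI : NeZero ((P + 1).factorial * 4) := ⟨by positivity⟩
  have hv : ∀ (p : S) (z : GG (P + 1)),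
      z ^ (ZMod.unitOfCoprime (t p) (h2 p)).val.val = z ^ t p := fun p z => by
    rw [ZMod.coe_unitOfCoprime, ZMod.val_natCast, ← pow_eq_pow_mod _ (gg_exp _ z)]
  have key : ∀ p p' : S, p'.1 < p.1 → x p' ^ t p = x p' := fun p p' hl => by
    have hco : (orderOf (x p')).Coprime p := by
      refine Nat.Coprime.coprime_dvd_left (orderOf_dvd_of_pow_eq_one (h1 p')) ?_
      refine Nat.Coprime.mul_left (Nat.Coprime.mul_left ?_ ?_) ?_
      · exact (Nat.coprime_primes (hp _ p'.2) (hp _ p.2)).2 hl.ne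
      · exact ((Nat.Prime.coprime_iff_not_dvd (hp _ p.2)).2 (hnd _ p.2 _ p'.2 hl.le)).symm
      · exact Nat.Coprime.pow_left 2 (Nat.coprime_two_left.2 (ho _ p.2))
    have := h4 p _ (orderOf_dvd_of_pow_eq_one (gg_exp _ (x p'))) hco
    rw [pow_eq_pow_iff_modEq.2 this, pow_one]
  refine ⟨P + 1, ?_⟩
  haveI : Fintype (GG (P + 1)) := Fintype.ofFinite _
  have := rank_lb _ (gg_exp (P + 1)) (fun p : S => ZMod.unitOfCoprime (t p) (h2 p))
    (fun i j h => by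
      simp only [hv] at h
      rcases lt_trichotomy i.1 j.1 with hl | hl | hl
      · exact absurd ((h (x i)).2 (by rw [key j i hl])) (h3 i)
      · exact Subtype.ext hl
      · exact absurd ((h (x j)).1 (by rw [key i j hl])) (h3 j))
  rwa [Fintype.card_coe, hc] at this

end Pool.Agent.H.MP_fc75c6_al
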